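import Pool.Agent.H55.GW.Targets3

/-! Module BXR of the board wq_modules (helper57). -/

set_option autoImplicit false

namespace Pool.Agent.H57.GW

open Pool.Agent.H55.GW Pool.Agent.H55.GW.Frame

theorem rIn_within {W : Type} {D : W → W → Prop} {S : Set W} {x y : W} (h : RIn D S x y) :
    RIn D {z | z ∈ S ∧ RIn D S x z} x y := by
  obtain ⟨h1, h2⟩ := h
  induction h2 with
  | refl => exact RIn.refl ⟨h1, RIn.refl h1⟩
  | @tail b c h3 h4 ih =>
    have h5 : RIn D S x b := ⟨h1, h3⟩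
    exact ih.tail h4.1 ⟨h4.2, RIn.tail h5 h4.1 h4.2⟩

/-- predecessors of vertices of a level are in the level -/
theorem inc_back {c : Ctx} (hc : c.Ok) {i : ℕ} (hi : i ≤ c.T) {S : Set Vx} {x y : Vx}
    (h : RIn (c.F.D c.m) S x y) (hy : y ∈ c.O i) : x ∈ c.O i := by
  obtain ⟨h1, h2⟩ := h
  induction h2 using Relation.ReflTransGen.head_induction_on with
  | refl => exact hy
  | @head a b h3 h4 ih => exact hc.inc i hi a b h3.1 (ih h3.2)

theorem s_notO0 {c : Ctx} (hc : c.Ok) {i : ℕ} (h1 : 1 ≤ i) (hi : i ≤ c.T) (a : Fin c.k) :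
    (Sum.inr (c.s i a) : Vx) ∉ c.O 0 := by
  cases hty : c.ty a with
  | true => exact (hc.sO i hi a hty).2.2 0 (by omega)
  | false =>
    intro h
    exact (hc.sI i hi a hty).2.1 (hc.mono 0 i (Nat.zero_le _) hi h)

theorem s_inj {c : Ctx} (hc : c.Ok) {i j : ℕ} (hij : i < j) (hj : j ≤ c.T) (a : Fin c.k) :
    c.s i a ≠ c.s j a := by
  intro he
  cases hty : c.ty a with
  | true =>
    have h1 := (hc.sO i (by omega) a hty).2.1
    have h2 := (hc.sO j hj a hty).2.2 i hij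
    rw [he] at h1
    exact h2 h1
  | false =>
    have h1 := (hc.sI i (by omega) a hty).2.2 j hij hj
    have h2 := (hc.sI j hj a hty).2.1
    rw [he] at h1
    exact h2 h1

theorem rail_walk {c : Ctx} (hc : c.Ok) (a : Fin c.k) {i0 : ℕ} (d : ℕ) (h : i0 + d ≤ c.T) :
    RIn (c.F.D c.m) (c.Tr a) (Sum.inr (c.s i0 a)) (Sum.inr (c.s (i0 + d) a)) := by
  induction d with
  | zero => exact RIn.refl (hc.sV i0 (by omega) a).2.2
  | succ d ih =>
    refine (ih (by omega)).trans ?_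
    exact (hc.seg (i0 + d) (by omega) a).mono_set fun x hx => hx.1

/-- the arc from an outer vertex of `Ξ` to the region, and the class of the vertex -/
theorem xi_arc {c : Ctx} (hc : c.Ok) {ξ i : ℕ} {x : Vx} (hξ : ξ ∈ c.Ξ)
    (h0 : (Sum.inr ξ : Vx) ∈ c.O 0) (h1 : 1 ≤ i) (h2 : i + 2 ≤ c.T)
    (hG : c.F.G (Sum.inr ξ) x) (hx : x ∈ c.Reg i) :
    c.F.D c.m (Sum.inr ξ) x ∧ c.F.isP ξ ∧ x ∉ c.O 0 := by
  have hx0 : x ∉ c.O 0 := by
    intro h
    exact hx.1.2 (hc.mono 0 (i - 1) (Nat.zero_le _) (by omega) h)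
  have hD : c.F.D c.m (Sum.inr ξ) x := by
    rcases Frame.G_D hc.pm hG with h | h
    · exact h
    · exact absurd (hc.inc 0 (Nat.zero_le _) _ _ h h0) hx0
  refine ⟨hD, ?_, hx0⟩
  by_contra hP
  have h3 := Frame.out_Q hc.pm hP hD
  have h4 := (hc.hub 0 (Nat.zero_le _) ξ (hc.xiV ξ hξ).1).1 h0
  rw [← h3] at h4
  exact hx0 h4

/-- a walk from the sources to a vertex of class `P` -/
theorem walk_src {F : Frame} {m : ℕ → Vx} (hm : F.IsPM m) (hF : F.CoFan m) {ξ : ℕ} (hV : ξ ∈ F.V)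
    (hP : F.isP ξ) : ∃ e, e ∈ F.E ∧ e ∉ F.base m ∧ RIn (F.D m) Set.univ (Sum.inl e) (Sum.inr ξ) := by
  have hmate := Frame.D_mate_P hm hV hP
  rcases hm.cases hV with ⟨e, he, h1⟩ | ⟨u, hu, hu1, hu2, hu3, hu4⟩
  · refine ⟨e, Frame.att_E h1, ?_, ?_⟩
    · intro h
      exact ((Frame.mem_base_iff h1).1 h).1 hP he
    · rw [he] at hmate
      exact RIn.single hmate (Set.mem_univ _) (Set.mem_univ _)
  · have hQ : ¬ F.isP u := hu3.1 hP
    rcases hF u hu1 hQ with h | h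
    · exfalso
      have h1 := h.1 ξ
      rcases hu4 with h2 | h2
      · exact h1.2 h2
      · exact h1.1 h2
    · obtain ⟨s, hs, hw⟩ := h (Sum.inr ξ) (by
        intro he
        have := Sum.inr_injective he
        rw [this] at hP
        exact hQ hP)
      obtain ⟨e, he1, he2, rfl⟩ := hs
      refine ⟨e, by simpa using he1, he2, ?_⟩
      rw [hu] at hmate
      exact (hw.mono_set (Set.subset_univ _)).tail hmate (Set.mem_univ _)

/-- the windows for a fixed pair -/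
def Win (c : Ctx) (ξ : ℕ) (a : Fin c.k) : Set ℕ :=
  {i | 1 ≤ i ∧ i + 2 ≤ c.T ∧ ∃ x y, c.F.G (Sum.inr ξ) x ∧ c.Prt i a y ∧ RIn c.F.G (c.Reg i) x y}

theorem win_bound (hLEX : T_LEX) {q : ℕ} {φ : ℕ → ℕ} (hφ : Monotone φ) {σ RU RG : ℕ}
    (hU : ∀ (M : Matroid ℕ) (F : Frame) (m : ℕ → Vx), Gam q M → F.Rep M → Good F φ → F.IsPM m →
      ∀ a₁ a₂ : ℕ, a₁ ≠ a₂ → a₁ ∈ F.E → a₁ ∉ F.base m → a₂ ∈ F.E → a₂ ∉ F.base m →
      ∀ T₁ T₂ : Set Vx, Disjoint T₁ T₂ → (∀ x ∈ T₁, RIn (F.D m) T₁ (Sum.inl a₁) x) →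
      (∀ x ∈ T₂, RIn (F.D m) T₂ (Sum.inl a₂) x) →
      ∀ (n : ℕ) (Gr E E' : Fin n → Set Vx) (t t' : Fin n → Vx),
      (∀ j j', j ≠ j' → Disjoint (Gr j) (Gr j')) → (∀ j, E j ⊆ Gr j ∧ E' j ⊆ Gr j ∧ t j ∈ E j ∧
        t' j ∈ E' j ∧ t j ∈ F.snk m ∧ t' j ∈ F.snk m ∧ RIn F.G (Gr j) (t j) (t' j) ∧
        (∀ x ∈ E j, ∃ u ∈ T₁, RIn (F.D m) (insert u (E j)) u x) ∧
        ∀ x ∈ E' j, ∃ u ∈ T₂, RIn (F.D m) (insert u (E' j)) u x) → n ≤ RU)
    (hGR : ∀ c : Ctx, c.Ok → c.F.Exits c.m φ → c.Ξ.card + c.k ≤ σ →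
      ∀ (I : Set ℕ) (u u' : ℕ → Vx),
      (∀ i ∈ I, 1 ≤ i ∧ i + 2 ≤ c.T ∧ (u i ∈ c.F.inn ∨ u i ∈ c.F.snk c.m) ∧
        (u' i ∈ c.F.inn ∨ u' i ∈ c.F.snk c.m) ∧ RIn c.F.G (c.Reg i) (u i) (u' i)) →
      RG < I.ncard → ∃ (ix : Fin (RU + 1) → ℕ) (Gr E E' : Fin (RU + 1) → Set Vx)
        (t t' : Fin (RU + 1) → Vx),
        (∀ j j', j ≠ j' → Disjoint (Gr j) (Gr j')) ∧
        ∀ j, ix j ∈ I ∧ E j ⊆ Gr j ∧ E' j ⊆ Gr j ∧ t j ∈ E j ∧ t' j ∈ E' j ∧
          t j ∈ c.F.snk c.m ∧ t' j ∈ c.F.snk c.m ∧ RIn c.F.G (Gr j) (t j) (t' j) ∧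
          (∀ x ∈ E j, RIn (c.F.D c.m) (E j) (u (ix j)) x) ∧
          ∀ x ∈ E' j, RIn (c.F.D c.m) (E' j) (u' (ix j)) x)
    {M : Matroid ℕ} {c : Ctx} (hM : Gam q M) (hrep : c.F.Rep M) (hgood : Good c.F φ)
    (hco : c.F.CoFan c.m) (hc : c.Ok) (hcard : c.Ξ.card + c.k ≤ σ) {ξ : ℕ} (hξ : ξ ∈ c.Ξ)
    (h0 : (Sum.inr ξ : Vx) ∈ c.O 0) (a : Fin c.k) :
    (Win c ξ a).ncard ≤ φ σ + 2 + RG := by
  classical
  by_contra hcon
  push Not at hcon
  have hfin : (Win c ξ a).Finite := by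
    refine (Set.finite_Iic c.T).subset fun i hi => ?_
    have := hi.2.1
    simp only [Set.mem_Iic]
    omega
  -- the large windows
  set I : Set ℕ := {i | i ∈ Win c ξ a ∧ φ σ + 1 < i} with hI
  have hIfin : I.Finite := hfin.subset fun i hi => hi.1
  have hIcard : RG < I.ncard := by
    have h1 : Win c ξ a ⊆ I ∪ (Set.Iic (φ σ + 1)) := by
      intro i hi
      by_cases h : φ σ + 1 < i
      · exact Or.inl ⟨hi, h⟩
      · exact Or.inr (by simpa using h)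
    have h2 := Set.ncard_le_ncard h1 (hIfin.union (Set.finite_Iic _))
    have h3 := Set.ncard_union_le I (Set.Iic (φ σ + 1))
    have h4 : (Set.Iic (φ σ + 1)).ncard = φ σ + 2 := by
      rw [← Finset.coe_Iic, Set.ncard_coe_finset, Nat.card_Iic]
    omega
  obtain ⟨i1, hi1⟩ : I.Nonempty := by
    rw [← Set.ncard_pos hIfin]
    omega
  have hT : φ σ + 1 < c.T := by
    have h1 := hi1.2
    have h2 := hi1.1.2.1
    omega
  -- class of ξ
  have hξP : c.F.isP ξ := by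
    obtain ⟨h1, h2, x, y, hG, hy, hw⟩ := hi1.1
    exact (xi_arc hc hξ h0 h1 h2 hG hw.left_mem).2.1
  -- first root
  obtain ⟨e1, he1, he1b, hw1⟩ := walk_src hc.pm hco (hc.xiV ξ hξ).1 hξP
  obtain ⟨l1, hl1, -⟩ := hw1.exists_path
  set T1 : Set Vx := {x | x ∈ l1} with hT1
  have hT1walk : ∀ x ∈ T1, RIn (c.F.D c.m) T1 (Sum.inl e1) x := fun x hx => hl1.rIn_left hx
  have hT1ξ : (Sum.inr ξ : Vx) ∈ T1 := hl1.mem_right
  have hT1O : ∀ x ∈ T1, x ∈ c.O 0 := by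
    intro x hx
    obtain ⟨s, t, rfl⟩ := List.append_of_mem (show x ∈ l1 from hx)
    have hsuf : (x :: t).IsChain (c.F.D c.m) := List.IsChain.right_of_append hl1.1
    have hlast : (x :: t).getLast? = some (Sum.inr ξ) := by
      have h5 := hl1.2.2.2
      rwa [List.getLast?_append_of_ne_nil _ (by simp)] at h5
    have hpath : IsPath (c.F.D c.m) (x :: t) x (Sum.inr ξ) :=
      ⟨hsuf, (List.nodup_append.1 hl1.2.1).2.1, rfl, hlast⟩
    exact inc_back hc (Nat.zero_le _) hpath.rIn h0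
  -- second root
  have hFeeds := (hgood c.m hc.pm).2
  set Sg : Finset Vx := c.Ξ.image Sum.inr ∪ (Finset.univ : Finset (Fin c.k)).image
    (fun a' => Sum.inr (c.s 0 a')) with hSg
  have hSgcard : Sg.card ≤ σ := by
    refine (Finset.card_union_le _ _).trans ?_
    have h1 := Finset.card_image_le (s := c.Ξ) (f := (Sum.inr : ℕ → Vx))
    have h2 := Finset.card_image_le (s := (Finset.univ : Finset (Fin c.k)))
      (f := fun a' => (Sum.inr (c.s 0 a') : Vx))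
    rw [Finset.card_univ, Fintype.card_fin] at h2
    omega
  set X : Finset Vx := (Finset.Icc 1 (φ σ + 1)).image (fun i => Sum.inr (c.s i a)) with hX
  have hXcard : X.card = φ σ + 1 := by
    rw [hX, Finset.card_image_of_injOn]
    · simp
    · intro i hi j hj hij
      simp only [Finset.coe_Icc, Set.mem_Icc] at hi hj
      have h1 : c.s i a = c.s j a := Sum.inr_injective hij
      rcases lt_trichotomy i j with h | h | h
      · exact absurd h1 (s_inj hc h (by omega) a)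
      · exact h
      · exact absurd h1.symm (s_inj hc h (by omega) a)
  have hnosep : ¬ Pool.Agent.H55.GW.Sep (c.F.D c.m) (Sg : Set Vx) (c.F.src c.m) (X : Set Vx) := by
    intro hsep
    have h1 := hFeeds X (by
      intro x hx
      rw [hX, Finset.mem_image] at hx
      obtain ⟨i, hi, rfl⟩ := hx
      rw [Finset.mem_Icc] at hi
      exact Or.inl ⟨c.s i a, (hc.sV i (by omega) a).1, rfl⟩) Sg hsep
    have h2 := hφ hSgcard
    omega
  rw [Pool.Agent.H55.GW.Sep] at hnosep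
  push Not at hnosep
  obtain ⟨b0, hb0, x0, hx0, hw0⟩ := hnosep
  obtain ⟨e2, he2, he2b, rfl⟩ := hb0
  have he2' : e2 ∈ c.F.E := by simpa using he2
  rw [Finset.mem_coe, hX, Finset.mem_image] at hx0
  obtain ⟨i0, hi0, rfl⟩ := hx0
  rw [Finset.mem_Icc] at hi0
  have hnot0 : (Sum.inr (c.s i0 a) : Vx) ∉ c.O 0 := s_notO0 hc hi0.1 (by omega) a
  have hSgc : ∀ z : Vx, z ∈ ((Sg : Set Vx)ᶜ) → (∀ ξ ∈ c.Ξ, z ≠ Sum.inr ξ) ∧
      ∀ a', z ≠ Sum.inr (c.s 0 a') := by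
    intro z hz
    constructor
    · rintro ξ' hξ' rfl
      apply hz
      rw [Finset.mem_coe, hSg, Finset.mem_union]
      exact Or.inl (Finset.mem_image_of_mem _ hξ')
    · rintro a' rfl
      apply hz
      rw [Finset.mem_coe, hSg, Finset.mem_union]
      exact Or.inr (Finset.mem_image.2 ⟨a', Finset.mem_univ _, rfl⟩)
  obtain ⟨l2, hl2, hl2S⟩ := hw0.exists_path
  have hl2O : ∀ x ∈ l2, x ∉ c.O 0 := by
    intro x hx
    have h1 : RIn (c.F.D c.m) {z | (∀ ξ ∈ c.Ξ, z ≠ Sum.inr ξ) ∧ ∀ a', z ≠ Sum.inr (c.s 0 a')}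
        (Sum.inl e2) x := (hl2.rIn_left hx).mono_set fun z hz => hSgc z (hl2S z hz)
    have h2 : RIn (c.F.D c.m) {z | (∀ ξ ∈ c.Ξ, z ≠ Sum.inr ξ) ∧ ∀ a', z ≠ Sum.inr (c.s 0 a')}
        (Sum.inl e2) (Sum.inr (c.s i0 a)) := hw0.mono_set hSgc
    have h3 := hLEX c hc 0 (Nat.zero_le _) _ _ h1
    have h4 := hLEX c hc 0 (Nat.zero_le _) _ _ h2
    rw [← h3, h4]
    exact hnot0
  set T2 : Set Vx := {x | x ∈ l2} ∪
    {x | x ∈ c.Tr a ∧ RIn (c.F.D c.m) (c.Tr a) (Sum.inr (c.s i0 a)) x} with hT2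
  have hT2walk : ∀ x ∈ T2, RIn (c.F.D c.m) T2 (Sum.inl e2) x := by
    rintro x (hx | ⟨hx1, hx2⟩)
    · exact (hl2.rIn_left hx).mono_set fun z hz => Or.inl hz
    · have h1 : RIn (c.F.D c.m) T2 (Sum.inl e2) (Sum.inr (c.s i0 a)) :=
        (hl2.rIn).mono_set fun z hz => Or.inl hz
      exact h1.trans ((rIn_within hx2).mono_set fun z hz => Or.inr hz)
  have hT2O : ∀ x ∈ T2, x ∉ c.O 0 := by
    rintro x (hx | ⟨hx1, hx2⟩)
    · exact hl2O x hx
    · exact fun h => hnot0 (inc_back hc (Nat.zero_le _) hx2 h)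
  have hdisj : Disjoint T1 T2 := by
    rw [Set.disjoint_left]
    intro x h1 h2
    exact hT2O x h2 (hT1O x h1)
  have he12 : e1 ≠ e2 := by
    rintro rfl
    exact hT2O _ (Or.inl hl2.mem_left) (hT1O _ hl1.mem_left)
  -- windows
  have hwin : ∀ i ∈ I, ∃ x y, c.F.G (Sum.inr ξ) x ∧ c.Prt i a y ∧ RIn c.F.G (c.Reg i) x y :=
    fun i hi => hi.1.2.2
  choose! u u' hu using hwin
  obtain ⟨ix, Gr, E, E', t, t', hGr, hdat⟩ := hGR c hc (hgood c.m hc.pm).1 hcard I u u' (by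
    intro i hi
    obtain ⟨hG, hPt, hw⟩ := hu i hi
    have h1 := hi.1.1
    have h2 := hi.1.2.1
    refine ⟨h1, h2, ?_, ?_, hw⟩
    · have hD := (xi_arc hc hξ h0 h1 h2 hG hw.left_mem).1
      rcases hx : u i with e | v
      · rw [hx] at hD
        exact Or.inr ⟨e, hD.2, rfl⟩
      · rw [hx] at hD
        rcases (Frame.D_uni hD).2 with ⟨w, hw1, hw2⟩ | ⟨w, hw1, hw2⟩
        · exact Or.inl ⟨w, hw1, hw2⟩
        · exact absurd hw2 (by simp)
    · left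
      rcases hPt with h | h
      · exact ⟨c.s i a, (hc.sV i (by omega) a).1, h⟩
      · exact ⟨c.s (i + 1) a, (hc.sV (i + 1) (by omega) a).1, h⟩) hIcard
  have hfinal := hU M c.F c.m hM hrep hgood hc.pm e1 e2 he12 he1 he1b he2' he2b T1 T2 hdisj hT1walk
    hT2walk (RU + 1) Gr E E' t t' hGr (by
      intro j
      obtain ⟨hj1, hj2, hj3, hj4, hj5, hj6, hj7, hj8, hj9, hj10⟩ := hdat j
      refine ⟨hj2, hj3, hj4, hj5, hj6, hj7, hj8, ?_, ?_⟩
      · intro x hx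
        refine ⟨Sum.inr ξ, hT1ξ, ?_⟩
        obtain ⟨hG, hPt, hw⟩ := hu _ hj1
        have hD := (xi_arc hc hξ h0 hj1.1.1 hj1.1.2.1 hG hw.left_mem).1
        exact RIn.head hD (Set.mem_insert _ _)
          ((hj9 x hx).mono_set (Set.subset_insert _ _))
      · intro x hx
        refine ⟨u' (ix j), ?_, (hj10 x hx).mono_set (Set.subset_insert _ _)⟩
        obtain ⟨hG, hPt, hw⟩ := hu _ hj1
        have h1 := hj1.2
        have h2 := hj1.1.2.1
        right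
        rcases hPt with h | h
        · rw [h]
          refine ⟨(hc.sV (ix j) (by omega) a).2.2, ?_⟩
          have := rail_walk hc a (i0 := i0) (ix j - i0) (by omega)
          rwa [Nat.add_sub_cancel' (by omega)] at this
        · rw [h]
          refine ⟨(hc.sV (ix j + 1) (by omega) a).2.2, ?_⟩
          have := rail_walk hc a (i0 := i0) (ix j + 1 - i0) (by omega)
          rwa [Nat.add_sub_cancel' (by omega)] at this)
  omega

theorem bxr (hGRP : T_GRP) (hULB : T_ULB) (hLEX : T_LEX) : T_BXR := by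
  classical
  intro q hq φ hφ σ
  obtain ⟨RU, hU⟩ := hULB q hq φ hφ
  obtain ⟨RG, hGR⟩ := hGRP φ hφ σ (RU + 1)
  refine ⟨σ * σ * (φ σ + 2 + RG), ?_⟩
  intro M c hM hrep hgood hco hc hcard
  set A : Finset ℕ := (Finset.range (c.T + 1)).filter (fun i => 1 ≤ i ∧ i + 2 ≤ c.T ∧
    ∃ ξ ∈ c.Ξ, Sum.inr ξ ∈ c.O 0 ∧
    ∃ a x y, c.F.G (Sum.inr ξ) x ∧ c.Prt i a y ∧ RIn c.F.G (c.Reg i) x y) with hA
  have hAeq : {i | 1 ≤ i ∧ i + 2 ≤ c.T ∧ ∃ ξ ∈ c.Ξ, Sum.inr ξ ∈ c.O 0 ∧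
    ∃ a x y, c.F.G (Sum.inr ξ) x ∧ c.Prt i a y ∧ RIn c.F.G (c.Reg i) x y} = (A : Set ℕ) := by
    ext i
    rw [hA]
    simp only [Set.mem_ofPred_eq, Finset.coe_filter, Finset.mem_range]
    constructor
    · intro h
      exact ⟨by omega, h⟩
    · exact fun h => h.2
  rw [hAeq, Set.ncard_coe_finset]
  set P : Finset (ℕ × Fin c.k) := (c.Ξ.filter (fun ξ => (Sum.inr ξ : Vx) ∈ c.O 0)) ×ˢ
    (Finset.univ : Finset (Fin c.k)) with hP
  set f : ℕ × Fin c.k → Finset ℕ := fun p => (Finset.range (c.T + 1)).filter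
    (fun i => i ∈ Win c p.1 p.2) with hf
  have hsub : A ⊆ P.biUnion f := by
    intro i hi
    rw [hA, Finset.mem_filter] at hi
    obtain ⟨hi1, hi2, hi3, ξ, hξ, h0, a, x, y, hx⟩ := hi
    rw [Finset.mem_biUnion]
    refine ⟨(ξ, a), ?_, ?_⟩
    · rw [hP, Finset.mem_product, Finset.mem_filter]
      exact ⟨⟨hξ, h0⟩, Finset.mem_univ _⟩
    · rw [hf]
      simp only [Finset.mem_filter]
      exact ⟨hi1, hi2, hi3, x, y, hx⟩
  have hle : (P.biUnion f).card ≤ P.card * (φ σ + 2 + RG) := by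
    refine Finset.card_biUnion_le_card_mul _ _ _ ?_
    intro p hp
    rw [hP, Finset.mem_product, Finset.mem_filter] at hp
    have h1 := win_bound hLEX hφ hU hGR hM hrep hgood hco hc hcard hp.1.1 hp.1.2 p.2
    have h2 : (Win c p.1 p.2) = (f p : Set ℕ) := by
      ext i
      rw [hf]
      simp only [Finset.coe_filter, Finset.mem_range, Set.mem_ofPred_eq]
      constructor
      · intro h
        refine ⟨?_, h⟩
        have := h.2.1
        omega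
      · exact fun h => h.2
    rw [h2, Set.ncard_coe_finset] at h1
    exact h1
  have hPcard : P.card ≤ σ * σ := by
    rw [hP, Finset.card_product, Finset.card_univ, Fintype.card_fin]
    refine Nat.mul_le_mul ?_ (by omega)
    exact (Finset.card_filter_le _ _).trans (by omega)
  exact (Finset.card_le_card hsub).trans (hle.trans (Nat.mul_le_mul_right _ hPcard))

end Pool.Agent.H57.GW
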