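import Pool.Agent.H55.GW.Targets3

/-! Module GWB of the board wq_modules (helper57). -/

set_option autoImplicit false

namespace Pool.Agent.H57.GW

open Pool.Agent.H55.GW Pool.Agent.H55.GW.Frame

theorem dual_G' {F : Frame} {x y : Vx} (h : F.G x y) : F.dual.G x y := by
  rcases x with e | u <;> rcases y with e' | v
  · exact absurd h (by simp [Frame.G])
  · exact h
  · exact h
  · exact h.symm

theorem good_dual {F : Frame} {φ : ℕ → ℕ} (h : Good F φ) : Good F.dual φ := by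
  intro m hm
  have hm' : F.IsPM m := Frame.dual_isPM.1 hm
  obtain ⟨h1, h2⟩ := h m hm'
  constructor
  · intro X hX S hS
    refine h2 X (fun x hx => ?_) S ?_
    · rcases hX x hx with h3 | h3
      · exact Or.inl h3
      · rw [Frame.dual_snk] at h3
        exact Or.inr h3
    · rw [Frame.dual_snk, Frame.dual_sep hm'] at hS
      exact hS
  · intro X hX S hS
    refine h1 X (fun x hx => ?_) S ?_
    · rcases hX x hx with h3 | h3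
      · exact Or.inl h3
      · rw [Frame.dual_src] at h3
        exact Or.inr h3
    · rw [Frame.dual_src, Frame.dual_sep hm'] at hS
      exact hS

theorem cofan_dual {F : Frame} {m : ℕ → Vx} (hm : F.IsPM m) (h : F.Fan m) : F.dual.CoFan m := by
  intro v hv hP
  have hP' : F.isP v := by
    by_contra hcon
    exact hP hcon
  rcases h v hv hP' with h1 | h1
  · left
    exact ⟨fun u => ⟨(h1.1 u).2, (h1.1 u).1⟩, h1.2⟩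
  · right
    intro z hz
    obtain ⟨t, ht, hw⟩ := h1 z hz
    refine ⟨t, ?_, ?_⟩
    · rw [Frame.dual_src]
      exact ht
    · rw [Frame.dual_rIn hm]
      exact hw

theorem reg_dual {c : Ctx} (hc : c.Ok) {i : ℕ} (h1 : 1 ≤ i) (h2 : i + 2 ≤ c.T) :
    c.Reg i ⊆ c.dual.Reg (c.T - i - 1) := by
  intro x hx
  obtain ⟨⟨h3, h4⟩, h5⟩ := hx
  refine ⟨⟨?_, ?_⟩, h5⟩
  · refine ⟨hc.sub (i + 2) h2 h3, ?_⟩
    have : c.T - (c.T - i - 1 + 2) = i - 1 := by omega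
    rw [this]
    exact h4
  · rintro ⟨-, h6⟩
    apply h6
    have : c.T - (c.T - i - 1 - 1) = i + 2 := by omega
    rw [this]
    exact h3

theorem walk_dual {c : Ctx} (hc : c.Ok) {i : ℕ} (h1 : 1 ≤ i) (h2 : i + 2 ≤ c.T) {x y : Vx}
    (h : RIn c.F.G (c.Reg i) x y) : RIn c.dual.F.G (c.dual.Reg (c.T - i - 1)) x y :=
  h.mono (fun _ _ h' _ _ => dual_G' h') (reg_dual hc h1 h2)

theorem prt_dual {c : Ctx} {i : ℕ} (h2 : i + 2 ≤ c.T) {a : Fin c.k} {x : Vx}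
    (h : c.Prt i a x) : c.dual.Prt (c.T - i - 1) a x := by
  have e1 : c.T - (c.T - i - 1) = i + 1 := by omega
  have e2 : c.T - (c.T - i - 1 + 1) = i := by omega
  rcases h with h | h
  · right
    show x = Sum.inr (c.s (c.T - (c.T - i - 1 + 1)) a)
    rw [e2]
    exact h
  · left
    show x = Sum.inr (c.s (c.T - (c.T - i - 1)) a)
    rw [e1]
    exact h

theorem xi_dual {c : Ctx} (hc : c.Ok) {ξ : ℕ} (hξ : ξ ∈ c.Ξ) (h : (Sum.inr ξ : Vx) ∉ c.O 0) :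
    (Sum.inr ξ : Vx) ∈ c.dual.O 0 := by
  obtain ⟨h1, h2⟩ := hc.xiV ξ hξ
  refine ⟨Or.inl ⟨ξ, h1, rfl⟩, ?_⟩
  rcases h2 with h2 | h2
  · exact absurd h2 h
  · simpa using h2

theorem gwb (hBRR : T_BRR) (hBXX : T_BXX) (hBXR : T_BXR) (hRCD : T_RCD) (hDUR : T_DUR)
    (hDUG : T_DUG) : T_GWB := by
  classical
  intro q hq φ hφ σ
  obtain ⟨R1, h1⟩ := hBRR q hq φ hφ σ
  obtain ⟨R2, h2⟩ := hBXX q hq φ hφ σ
  obtain ⟨R3, h3⟩ := hBXR q hq φ hφ σ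
  refine ⟨R1 + (R2 + R2) + (R3 + R3), ?_⟩
  intro M c hM hrep hgood hfan hco hc hcard
  have hfin : ∀ P : ℕ → Prop, {i | 1 ≤ i ∧ i + 2 ≤ c.T ∧ P i}.Finite := by
    intro P
    refine (Set.finite_Iic c.T).subset fun i hi => ?_
    have := hi.2.1
    simp only [Set.mem_Iic]
    omega
  set A1 : Set ℕ := {i | 1 ≤ i ∧ i + 2 ≤ c.T ∧ c.BadRR i} with hA1
  set PX : ℕ → Prop := fun i => ∃ ξ ∈ c.Ξ, ∃ ξ' ∈ c.Ξ, ξ ≠ ξ' ∧
      Sum.inr ξ ∈ c.O 0 ∧ Sum.inr ξ' ∈ c.O 0 ∧ ∃ x y, c.F.G (Sum.inr ξ) x ∧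
      c.F.G (Sum.inr ξ') y ∧ RIn c.F.G (c.Reg i) x y with hPX
  set PX' : ℕ → Prop := fun i => ∃ ξ ∈ c.Ξ, ∃ ξ' ∈ c.Ξ, ξ ≠ ξ' ∧
      Sum.inr ξ ∉ c.O 0 ∧ Sum.inr ξ' ∉ c.O 0 ∧ ∃ x y, c.F.G (Sum.inr ξ) x ∧
      c.F.G (Sum.inr ξ') y ∧ RIn c.F.G (c.Reg i) x y with hPX'
  set PR : ℕ → Prop := fun i => ∃ ξ ∈ c.Ξ, Sum.inr ξ ∈ c.O 0 ∧
    ∃ a x y, c.F.G (Sum.inr ξ) x ∧ c.Prt i a y ∧ RIn c.F.G (c.Reg i) x y with hPR
  set PR' : ℕ → Prop := fun i => ∃ ξ ∈ c.Ξ, Sum.inr ξ ∉ c.O 0 ∧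
    ∃ a x y, c.F.G (Sum.inr ξ) x ∧ c.Prt i a y ∧ RIn c.F.G (c.Reg i) x y with hPR'
  have hsub : {i | 1 ≤ i ∧ i + 2 ≤ c.T ∧ ¬ c.GoodW i} ⊆
      A1 ∪ ({i | 1 ≤ i ∧ i + 2 ≤ c.T ∧ PX i} ∪ {i | 1 ≤ i ∧ i + 2 ≤ c.T ∧ PX' i}) ∪
        ({i | 1 ≤ i ∧ i + 2 ≤ c.T ∧ PR i} ∪ {i | 1 ≤ i ∧ i + 2 ≤ c.T ∧ PR' i}) := by
    rintro i ⟨hi1, hi2, hi3⟩
    by_cases hb1 : c.BadRR i
    · exact Or.inl (Or.inl ⟨hi1, hi2, hb1⟩)
    by_cases hb2 : c.BadXX i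
    · obtain ⟨ξ, hξ, ξ', hξ', hne, hiff, hrest⟩ := hb2
      by_cases h0 : (Sum.inr ξ : Vx) ∈ c.O 0
      · exact Or.inl (Or.inr (Or.inl ⟨hi1, hi2, ξ, hξ, ξ', hξ', hne, h0, hiff.1 h0, hrest⟩))
      · exact Or.inl (Or.inr (Or.inr ⟨hi1, hi2, ξ, hξ, ξ', hξ', hne, h0,
          fun h => h0 (hiff.2 h), hrest⟩))
    by_cases hb3 : c.BadXR i
    · obtain ⟨ξ, hξ, hrest⟩ := hb3
      by_cases h0 : (Sum.inr ξ : Vx) ∈ c.O 0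
      · exact Or.inr (Or.inl ⟨hi1, hi2, ξ, hξ, h0, hrest⟩)
      · exact Or.inr (Or.inr ⟨hi1, hi2, ξ, hξ, h0, hrest⟩)
    exact absurd ⟨hi1, hi2, hb1, hb2, hb3⟩ hi3
  have hdok := hRCD c hc
  have hdM := hDUG q M hM
  have hdrep := hDUR c.F M hrep
  have hdgood : Good c.dual.F φ := good_dual hgood
  have hdco : c.dual.F.CoFan c.dual.m := cofan_dual hc.pm hfan
  have b1 : A1.ncard ≤ R1 := h1 M c hM hrep hgood hc hcard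
  have b2 : {i | 1 ≤ i ∧ i + 2 ≤ c.T ∧ PX i}.ncard ≤ R2 := h2 M c hM hrep hgood hco hc hcard
  have b3 : {i | 1 ≤ i ∧ i + 2 ≤ c.T ∧ PR i}.ncard ≤ R3 := h3 M c hM hrep hgood hco hc hcard
  have b2' := h2 M.dual c.dual hdM hdrep hdgood hdco hdok hcard
  have b3' := h3 M.dual c.dual hdM hdrep hdgood hdco hdok hcard
  have hinj : ∀ P : ℕ → Prop, Set.InjOn (fun i => c.T - i - 1)
      {i | 1 ≤ i ∧ i + 2 ≤ c.T ∧ P i} := by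
    intro P i hi j hj hij
    have e1 := hi.2.1
    have e2 := hj.2.1
    simp only at hij
    omega
  have hfind : ∀ P : ℕ → Prop, {i | 1 ≤ i ∧ i + 2 ≤ c.dual.T ∧ P i}.Finite := fun P => hfin P
  have c2 : {i | 1 ≤ i ∧ i + 2 ≤ c.T ∧ PX' i}.ncard ≤ R2 := by
    refine le_trans ?_ b2'
    refine Set.ncard_le_ncard_of_injOn (fun i => c.T - i - 1) ?_ (hinj _) (hfind _)
    rintro i ⟨hi1, hi2, ξ, hξ, ξ', hξ', hne, h0, h0', x, y, hx, hy, hw⟩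
    refine ⟨by omega, ?_, ξ, hξ, ξ', hξ', hne, xi_dual hc hξ h0, xi_dual hc hξ' h0', x, y,
      dual_G' hx, dual_G' hy, walk_dual hc hi1 hi2 hw⟩
    show c.T - i - 1 + 2 ≤ c.T
    omega
  have c3 : {i | 1 ≤ i ∧ i + 2 ≤ c.T ∧ PR' i}.ncard ≤ R3 := by
    refine le_trans ?_ b3'
    refine Set.ncard_le_ncard_of_injOn (fun i => c.T - i - 1) ?_ (hinj _) (hfind _)
    rintro i ⟨hi1, hi2, ξ, hξ, h0, a, x, y, hx, hy, hw⟩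
    refine ⟨by omega, ?_, ξ, hξ, xi_dual hc hξ h0, a, x, y,
      dual_G' hx, prt_dual hi2 hy, walk_dual hc hi1 hi2 hw⟩
    show c.T - i - 1 + 2 ≤ c.T
    omega
  have hbig := Set.ncard_le_ncard hsub (((hfin _).union ((hfin _).union (hfin _))).union
    ((hfin _).union (hfin _)))
  have u1 := Set.ncard_union_le (A1 ∪ ({i | 1 ≤ i ∧ i + 2 ≤ c.T ∧ PX i} ∪
    {i | 1 ≤ i ∧ i + 2 ≤ c.T ∧ PX' i}))
    ({i | 1 ≤ i ∧ i + 2 ≤ c.T ∧ PR i} ∪ {i | 1 ≤ i ∧ i + 2 ≤ c.T ∧ PR' i})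
  have u2 := Set.ncard_union_le A1 ({i | 1 ≤ i ∧ i + 2 ≤ c.T ∧ PX i} ∪
    {i | 1 ≤ i ∧ i + 2 ≤ c.T ∧ PX' i})
  have u3 := Set.ncard_union_le {i | 1 ≤ i ∧ i + 2 ≤ c.T ∧ PX i}
    {i | 1 ≤ i ∧ i + 2 ≤ c.T ∧ PX' i}
  have u4 := Set.ncard_union_le {i | 1 ≤ i ∧ i + 2 ≤ c.T ∧ PR i}
    {i | 1 ≤ i ∧ i + 2 ≤ c.T ∧ PR' i}
  omega

end Pool.Agent.H57.GW
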